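import Pool.Agent.H77.BC.Targets

/-!
# Board `bcp_modules`, row `FIA`: identification
-/

set_option autoImplicit false

open Set Matrix Pool.Agent.H77.BC

namespace Pool.Agent.H41.BCP

theorem pf_FIA : FIA := by
  intro G S K _ _ _ n hn htr π hsurj hker s u hu hstab
  set p0 : Projectivization K (Fin (n + 1) → K) := Projectivization.mk K u hu with hp0
  have hstab' : ∀ A : SpecialLinearGroup (Fin (n + 1)) K, π A • s = s ↔ A • p0 = p0 := by
    intro A
    rw [hstab A, hp0, Projectivization.smul_mk, Projectivization.mk_eq_mk_iff']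
    constructor
    · rintro ⟨a, ha⟩
      exact ⟨a, ha.symm⟩
    · rintro ⟨a, ha⟩
      exact ⟨a, ha.symm⟩
  have hrel : ∀ A B : SpecialLinearGroup (Fin (n + 1)) K,
      π A • s = π B • s ↔ A • p0 = B • p0 := by
    intro A B
    have h := hstab' (B⁻¹ * A)
    rw [map_mul, map_inv, mul_smul, mul_smul, inv_smul_eq_iff, inv_smul_eq_iff] at h
    exact h
  have hex : ∀ x : S, ∃ A : SpecialLinearGroup (Fin (n + 1)) K, π A • s = x := by
    intro x
    obtain ⟨g, hg⟩ := htr.exists_smul_eq s x
    obtain ⟨A, rfl⟩ := hsurj g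
    exact ⟨A, hg⟩
  choose A hA using hex
  have hbij : Function.Bijective (fun x : S => A x • p0) := by
    constructor
    · intro x y hxy
      have h := (hrel (A x) (A y)).2 hxy
      rw [hA, hA] at h
      exact h
    · intro p
      obtain ⟨B, hB⟩ := MulAction.exists_smul_eq (SpecialLinearGroup (Fin (n + 1)) K) p0 p
      refine ⟨π B • s, ?_⟩
      change A (π B • s) • p0 = p
      rw [← hB, ← hrel, hA]
  have hb : ∀ B : SpecialLinearGroup (Fin (n + 1)) K, A (π B • s) • p0 = B • p0 := by
    intro B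
    rw [← hrel, hA]
  let φ : G ≃* ProjectiveSpecialLinearGroup (Fin (n + 1)) K :=
    (QuotientGroup.quotientKerEquivOfSurjective π hsurj).symm.trans
      (QuotientGroup.quotientMulEquivOfEq hker)
  have hφ : ∀ B : SpecialLinearGroup (Fin (n + 1)) K, φ (π B) = QuotientGroup.mk B := by
    intro B
    have h1 : (QuotientGroup.quotientKerEquivOfSurjective π hsurj).symm (π B) =
        QuotientGroup.mk B := by
      rw [MulEquiv.symm_apply_eq]
      rfl
    change (QuotientGroup.quotientMulEquivOfEq hker)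
      ((QuotientGroup.quotientKerEquivOfSurjective π hsurj).symm (π B)) = _
    rw [h1]
    rfl
  refine ⟨φ, Equiv.ofBijective _ hbij, ?_⟩
  intro g B hg x v hv hw hx
  have hgB : g = π B := by
    apply φ.injective
    rw [hg, hφ]
  obtain ⟨C, hC⟩ : ∃ C : SpecialLinearGroup (Fin (n + 1)) K, π C • s = x := ⟨A x, hA x⟩
  rw [Equiv.ofBijective_apply] at hx ⊢
  rw [← hC, hb] at hx
  rw [hgB, ← hC, ← mul_smul, ← map_mul, hb, mul_smul, hx, Projectivization.smul_mk]
  rfl

end Pool.Agent.H41.BCP
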